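import Mathlib
import Pool.Agent.H902R2.Wsm
import Pool.Agent.H902R2.Init
import Pool.Agent.H902R2.Hered

set_option autoImplicit false

/-!
# A compact space whose square minus the diagonal is weakly sigma-metacompact has hereditarily
weakly sigma-metacompact square
-/

namespace Pool.Agent.Results.MP_294ed4_gt.SquareHereditary

open Pool.Agent.H902R2.Wsm

universe u

/-- If `X` is compact Hausdorff and `X² ∖ Δ` is weakly sigma-metacompact, then every subspace of
`X²` is weakly sigma-metacompact. -/
theorem result (X : Type u) [TopologicalSpace X] [CompactSpace X] [T2Space X]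
    (h : WeaklySigmaMetacompact {p : X × X // p.1 ≠ p.2}) :
    HereditarilyWeaklySigmaMetacompact (X × X) := by
  obtain ⟨𝕎, f, K, hK, Hf, hc, hsep, hH⟩ := Pool.Agent.H902R2.Init.exists_family h
  exact Pool.Agent.H902R2.Hered.square f Hf hc hsep hH

end Pool.Agent.Results.MP_294ed4_gt.SquareHereditary
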